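import Pool.Agent.Lib_helper79.Q3.Asm3
import Pool.Agent.Lib_helper79.Q3.BASE

set_option autoImplicit false

/-! Non-attacking queens on three-dimensional cubes of side divisible by 7. -/

namespace Pool.Agent.Results.MP_479881_co.DivisibleBySeven

/-- The board `[n]^3 = {1, …, n}^3`. -/
def board (n : ℕ) : Set (Fin 3 → ℤ) := {p | ∀ i, 1 ≤ p i ∧ p i ≤ n}

/-- The cells `p`, `q` attack each other: `q - p = t v` for a nonzero integer `t` and a direction
`v ∈ {-1, 0, 1}^3`, `v ≠ 0`. -/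
def Attack (p q : Fin 3 → ℤ) : Prop :=
  ∃ (t : ℤ) (v : Fin 3 → ℤ), t ≠ 0 ∧ (∀ i, v i = -1 ∨ v i = 0 ∨ v i = 1) ∧ v ≠ 0 ∧ q - p = t • v

/-- A solution of the `(n,3)`-queens problem: a non-attacking set of exactly `n^2` cells of the
board `[n]^3`. -/
def IsQueensSolution (n : ℕ) (S : Set (Fin 3 → ℤ)) : Prop :=
  S ⊆ board n ∧ (∀ p ∈ S, ∀ q ∈ S, p ≠ q → ¬ Attack p q) ∧ S.ncard = n ^ 2

/-- The product of 7 and twenty larger primes; it has 73 digits. -/
def N : ℕ :=
  7 * (463 * 491 * 631 * 659 * 701 * 743 * 827 * 883 * 911 * 953 * 967 * 1009 * 1051) *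
    (66109 * 75083 * 79423 * 81299 * 84463 * 85751 * 92009)

theorem N_eq : N = Pool.Agent.Q3.nn := by
  norm_num [N, Pool.Agent.Q3.nn]

/-- The third coordinate of the linear modular solution. -/
def off (m : ℕ) (u v : ℤ) : Fin 3 → ℤ := ![u, v, (2 * u + 4 * v) % m]

theorem off_mem {m : ℕ} (hm : 0 < m) {u v : ℤ} (hu : 0 ≤ u ∧ u < m) (hv : 0 ≤ v ∧ v < m)
    (i : Fin 3) : 0 ≤ off m u v i ∧ off m u v i < m := by
  have hm' : (0 : ℤ) < m := by exact_mod_cast hm
  fin_cases i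
  · exact hu
  · exact hv
  · exact ⟨Int.emod_nonneg _ hm'.ne', Int.emod_lt_of_pos _ hm'⟩

theorem lin_ne {w : Fin 3 → ℤ} (hw : ∀ i, w i = -1 ∨ w i = 0 ∨ w i = 1) (hw0 : w ≠ 0) :
    w 2 - 2 * w 0 - 4 * w 1 ≠ 0 ∧ |w 2 - 2 * w 0 - 4 * w 1| ≤ 7 := by
  have h0 := hw 0
  have h1 := hw 1
  have h2 := hw 2
  constructor
  · intro h
    apply hw0
    funext i
    fin_cases i
    · show w 0 = 0
      omega
    · show w 1 = 0
      omega
    · show w 2 = 0
      omega
  · rw [abs_le]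
    omega

theorem coprime_small {m : ℕ} (hm : Nat.gcd m 210 = 1) {c : ℤ} (hc : c ≠ 0) (hc7 : |c| ≤ 7) :
    IsCoprime (m : ℤ) c := by
  have h2 : IsCoprime (m : ℤ) 2 := by
    rw [show (2 : ℤ) = ((2 : ℕ) : ℤ) by norm_num, Nat.isCoprime_iff_coprime]
    exact Nat.Coprime.coprime_dvd_right (by norm_num : 2 ∣ 210) hm
  have h3 : IsCoprime (m : ℤ) 3 := by
    rw [show (3 : ℤ) = ((3 : ℕ) : ℤ) by norm_num, Nat.isCoprime_iff_coprime]
    exact Nat.Coprime.coprime_dvd_right (by norm_num : 3 ∣ 210) hm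
  have h5 : IsCoprime (m : ℤ) 5 := by
    rw [show (5 : ℤ) = ((5 : ℕ) : ℤ) by norm_num, Nat.isCoprime_iff_coprime]
    exact Nat.Coprime.coprime_dvd_right (by norm_num : 5 ∣ 210) hm
  have h7 : IsCoprime (m : ℤ) 7 := by
    rw [show (7 : ℤ) = ((7 : ℕ) : ℤ) by norm_num, Nat.isCoprime_iff_coprime]
    exact Nat.Coprime.coprime_dvd_right (by norm_num : 7 ∣ 210) hm
  have h1 : IsCoprime (m : ℤ) 1 := isCoprime_one_right
  have h4 : IsCoprime (m : ℤ) 4 := by
    have := h2.mul_right h2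
    norm_num at this
    exact this
  have h6 : IsCoprime (m : ℤ) 6 := by
    have := h2.mul_right h3
    norm_num at this
    exact this
  rw [abs_le] at hc7
  obtain ⟨ha, hb⟩ := hc7
  interval_cases c
  · exact h7.neg_right
  · exact h6.neg_right
  · exact h5.neg_right
  · exact h4.neg_right
  · exact h3.neg_right
  · exact h2.neg_right
  · exact h1.neg_right
  · exact absurd rfl hc
  · exact h1
  · exact h2
  · exact h3
  · exact h4
  · exact h5
  · exact h6
  · exact h7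

/-- Blowing up a solution of side `n` by the linear modular solution of side `m`. -/
theorem compose (n m : ℕ) (hm : Nat.gcd m 210 = 1) (S : Finset (Fin 3 → ℤ))
    (hcard : S.card = n ^ 2) (hS : ∀ p ∈ S, ∀ i : Fin 3, 0 ≤ p i ∧ p i < (n : ℤ))
    (hna : ∀ p ∈ S, ∀ q ∈ S, p ≠ q →
      ¬ ∃ k : ℤ, 0 < k ∧ ∀ i : Fin 3, p i - q i = 0 ∨ |p i - q i| = k) :
    ∃ A : Set (Fin 3 → ℤ), IsQueensSolution (n * m) A := by
  classical
  have hm0 : 0 < m := by
    rcases Nat.eq_zero_or_pos m with h | h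
    · rw [h] at hm
      norm_num at hm
    · exact h
  have hmz : (0 : ℤ) < m := by exact_mod_cast hm0
  let R : Finset ℤ := (Finset.range m).map ⟨fun k : ℕ => (k : ℤ), Nat.cast_injective⟩
  have hR : ∀ u, u ∈ R ↔ 0 ≤ u ∧ u < m := by
    intro u
    simp only [R, Finset.mem_map, Finset.mem_range, Function.Embedding.coeFn_mk]
    constructor
    · rintro ⟨k, hk, rfl⟩
      exact ⟨Int.natCast_nonneg k, by exact_mod_cast hk⟩
    · rintro ⟨h1, h2⟩
      exact ⟨u.toNat, by omega, by omega⟩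
  have hRc : R.card = m := by simp [R]
  let F : (Fin 3 → ℤ) × (ℤ × ℤ) → (Fin 3 → ℤ) := fun x i => m * x.1 i + off m x.2.1 x.2.2 i + 1
  let D : Finset ((Fin 3 → ℤ) × (ℤ × ℤ)) := S ×ˢ (R ×ˢ R)
  have hD : ∀ x ∈ D, x.1 ∈ S ∧ (0 ≤ x.2.1 ∧ x.2.1 < m) ∧ (0 ≤ x.2.2 ∧ x.2.2 < m) := by
    intro x hx
    simp only [D, Finset.mem_product] at hx
    exact ⟨hx.1, (hR _).mp hx.2.1, (hR _).mp hx.2.2⟩
  -- equal residues
  have hres : ∀ x ∈ D, ∀ y ∈ D, (∀ i, (m : ℤ) ∣ F y i - F x i) →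
      x.2 = y.2 ∧ ∀ i, F y i - F x i = m * (y.1 i - x.1 i) := by
    intro x hx y hy h
    obtain ⟨_, hx1, hx2⟩ := hD x hx
    obtain ⟨_, hy1, hy2⟩ := hD y hy
    have hi : ∀ i, off m x.2.1 x.2.2 i = off m y.2.1 y.2.2 i := by
      intro i
      have ha := off_mem hm0 hx1 hx2 i
      have hb := off_mem hm0 hy1 hy2 i
      obtain ⟨c, hc⟩ := h i
      simp only [F] at hc
      have hc' : off m y.2.1 y.2.2 i - off m x.2.1 x.2.2 i = m * (c - (y.1 i - x.1 i)) := by
        linear_combination hc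
      have hz : c - (y.1 i - x.1 i) = 0 := by
        by_contra hne
        rcases lt_or_gt_of_ne hne with h1 | h1
        · nlinarith
        · nlinarith
      rw [hz] at hc'
      linarith
    refine ⟨Prod.ext ?_ ?_, ?_⟩
    · exact hi 0
    · exact hi 1
    · intro i
      simp only [F]
      rw [hi i]
      ring
  have hinj : Set.InjOn F D := by
    intro x hx y hy hxy
    obtain ⟨h1, h2⟩ := hres x hx y hy (fun i => by rw [hxy]; simp)
    refine Prod.ext ?_ h1
    funext i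
    have h3 := h2 i
    rw [hxy, sub_self] at h3
    have h4 := (mul_eq_zero.mp h3.symm).resolve_left hmz.ne'
    linarith
  refine ⟨((D.image F : Finset (Fin 3 → ℤ)) : Set (Fin 3 → ℤ)), ?_, ?_, ?_⟩
  · intro p hp
    rw [Finset.mem_coe, Finset.mem_image] at hp
    obtain ⟨x, hx, rfl⟩ := hp
    obtain ⟨hx0, hx1, hx2⟩ := hD x hx
    intro i
    have h1 := hS x.1 hx0 i
    have h2 := off_mem hm0 hx1 hx2 i
    have h3 : (m : ℤ) * x.1 i + m ≤ n * m := by nlinarith
    constructor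
    · have : 0 ≤ (m : ℤ) * x.1 i := mul_nonneg hmz.le h1.1
      show 1 ≤ (m : ℤ) * x.1 i + off m x.2.1 x.2.2 i + 1
      linarith [h2.1]
    · show (m : ℤ) * x.1 i + off m x.2.1 x.2.2 i + 1 ≤ ((n * m : ℕ) : ℤ)
      push_cast
      linarith [h2.2]
  · intro p hp q hq hne hatt
    rw [Finset.mem_coe, Finset.mem_image] at hp hq
    obtain ⟨x, hx, rfl⟩ := hp
    obtain ⟨y, hy, rfl⟩ := hq
    obtain ⟨t, w, ht, hw, hw0, htw⟩ := hatt
    have hdiff : ∀ i, F y i - F x i = t * w i := fun i => by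
      have := congrFun htw i
      simpa using this
    obtain ⟨hc0, hc7⟩ := lin_ne hw hw0
    have hoff : ∀ z ∈ D, (m : ℤ) ∣ F z 2 - 2 * F z 0 - 4 * F z 1 + 5 := by
      intro z _
      have h1 : (m : ℤ) ∣ (2 * z.2.1 + 4 * z.2.2) % m - (2 * z.2.1 + 4 * z.2.2) := by
        rw [← Int.neg_sub]
        exact (Int.dvd_neg).mpr (Int.dvd_self_sub_emod)
      have h2 : F z 2 - 2 * F z 0 - 4 * F z 1 + 5 = m * (z.1 2 - 2 * z.1 0 - 4 * z.1 1) +
          ((2 * z.2.1 + 4 * z.2.2) % m - (2 * z.2.1 + 4 * z.2.2)) := by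
        show (m : ℤ) * z.1 2 + (2 * z.2.1 + 4 * z.2.2) % m + 1 - 2 * (m * z.1 0 + z.2.1 + 1) -
          4 * (m * z.1 1 + z.2.2 + 1) + 5 = _
        ring
      rw [h2]
      exact dvd_add (dvd_mul_right _ _) h1
    have hmt : (m : ℤ) ∣ t := by
      have h1 : (m : ℤ) ∣ t * (w 2 - 2 * w 0 - 4 * w 1) := by
        have h2 := dvd_sub (hoff y hy) (hoff x hx)
        have h3 : F y 2 - 2 * F y 0 - 4 * F y 1 + 5 - (F x 2 - 2 * F x 0 - 4 * F x 1 + 5) =
            t * (w 2 - 2 * w 0 - 4 * w 1) := by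
          linear_combination hdiff 2 - 2 * hdiff 0 - 4 * hdiff 1
        rwa [h3] at h2
      exact (coprime_small hm hc0 hc7).dvd_of_dvd_mul_right h1
    obtain ⟨s, rfl⟩ := hmt
    have hs : s ≠ 0 := fun h => ht (by rw [h, mul_zero])
    obtain ⟨h1, h2⟩ := hres x hx y hy (fun i => by
      rw [hdiff i, mul_assoc]; exact dvd_mul_right _ _)
    have h3 : ∀ i, y.1 i - x.1 i = s * w i := by
      intro i
      have h4 := h2 i
      rw [hdiff i, mul_assoc] at h4
      exact (mul_left_cancel₀ hmz.ne' h4).symm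
    have hxy : y.1 ≠ x.1 := by
      intro h
      apply hne
      have : x = y := Prod.ext h.symm h1
      rw [this]
    refine hna y.1 (hD y hy).1 x.1 (hD x hx).1 hxy ⟨|s|, abs_pos.mpr hs, fun i => ?_⟩
    rw [h3 i]
    rcases hw i with h | h | h
    · right; rw [h, mul_neg_one, abs_neg]
    · left; rw [h, mul_zero]
    · right; rw [h, mul_one]
  · rw [Set.ncard_coe_finset, Finset.card_image_of_injOn hinj]
    simp only [D, Finset.card_product]
    rw [hcard, hRc]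
    ring

/-- **The condition `gcd(n, 210) = 1` is not necessary for the `(n,3)`-queens problem.** For the
explicit number `N`, a product of 7 and twenty larger primes, and every `m` with `gcd(m, 210) = 1`,
the `(N m, 3)`-queens problem has a solution although `N m` is divisible by 7. -/
theorem result :
    ∀ m : ℕ, Nat.gcd m 210 = 1 →
      Nat.gcd (N * m) 210 = 7 ∧ ∃ S : Set (Fin 3 → ℤ), IsQueensSolution (N * m) S := by
  intro m hm
  refine ⟨?_, ?_⟩
  · have h1 : Nat.gcd N 210 = 7 := by decide +kernel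
    rw [Nat.Coprime.gcd_mul_right_cancel N hm, h1]
  · obtain ⟨S, h1, h2, h3⟩ := Pool.Agent.Q3.main_of_base Pool.Agent.Q3.base_pr'
    rw [← N_eq] at h1 h2
    exact compose N m hm S h1 h2 h3

end Pool.Agent.Results.MP_479881_co.DivisibleBySeven
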